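import Pool.Agent.Helper860_Web.Basic

/-!
# Removing a path, augmenting a wave, deleting a roofed vertex
-/

namespace Pool.Agent.Helper860_Web

universe u

variable {V : Type u} {G : Amb V}

/-! ### Removing the path through a vertex -/

/-- Remove from `W` the path through `z`. -/
def rem (W : Wp G) (z : V) : Wp G where
  C := {v | v ∈ W.C ∧ ¬ Relation.EqvGen W.E v z}
  E := fun u v => W.E u v ∧ ¬ Relation.EqvGen W.E v z
  adj := fun h => W.adj h.1
  memL := fun h => ⟨W.memL h.1, fun h' =>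
    h.2 (Relation.EqvGen.trans _ _ _ (Relation.EqvGen.symm _ _ (Relation.EqvGen.rel _ _ h.1)) h')⟩
  memR := fun h => ⟨W.memR h.1, h.2⟩
  notA := fun h => W.notA h.1
  out := fun h h' => W.out h.1 h'.1
  inn := fun h h' => W.inn h.1 h'.1
  pre := by
    rintro v ⟨hv, hv'⟩ hA
    obtain ⟨u, hu⟩ := W.pre hv hA
    exact ⟨u, hu, hv'⟩
  wf := Subrelation.wf (fun h => h.1) W.wf

theorem rem_ter {W : Wp G} {z x : V} : x ∈ (rem W z).ter ↔ x ∈ W.ter ∧ ¬ Relation.EqvGen W.E x z := by
  constructor
  · rintro ⟨⟨h1, h2⟩, h3⟩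
    refine ⟨⟨h1, fun y e => h3 y ⟨e, fun h => h2 ?_⟩⟩, h2⟩
    exact Relation.EqvGen.trans _ _ _ (Relation.EqvGen.rel _ _ e) h
  · rintro ⟨⟨h1, h2⟩, h3⟩
    exact ⟨⟨h1, h3⟩, fun y e => h2 y e.1⟩

theorem exists_init (W : Wp G) {z : V} (hz : z ∈ W.C) :
    ∃ a ∈ G.A, a ∈ W.C ∧ Relation.EqvGen W.E a z := by
  induction z using W.wf.induction with
  | _ z ih =>
    by_cases hA : z ∈ G.A
    · exact ⟨z, hA, hz, Relation.EqvGen.refl _⟩
    · obtain ⟨u, hu⟩ := W.pre hz hA
      obtain ⟨a, h1, h2, h3⟩ := ih u hu (W.memL hu)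
      exact ⟨a, h1, h2, Relation.EqvGen.trans _ _ _ h3 (Relation.EqvGen.rel _ _ hu)⟩

/-- Every vertex on the path ending in the terminal vertex `t` reaches `t`. -/
theorem eqv_ter {W : Wp G} {t x : V} (ht : t ∈ W.ter) (h : Relation.EqvGen W.E x t) :
    Relation.ReflTransGen W.E x t := by
  have key : ∀ x y, Relation.EqvGen W.E x y →
      (Relation.ReflTransGen W.E x t ↔ Relation.ReflTransGen W.E y t) := by
    intro x y hxy
    induction hxy with
    | rel x y e =>
      constructor
      · intro h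
        rcases Relation.ReflTransGen.cases_head h with rfl | ⟨y', e', h'⟩
        · exact (ht.2 y e).elim
        · rwa [W.out e e']
      · intro h
        exact Relation.ReflTransGen.head e h
    | refl x => rfl
    | symm x y _ ih => exact ih.symm
    | trans x y z _ _ ih1 ih2 => exact ih1.trans ih2
  exact (key x t h).2 Relation.ReflTransGen.refl

theorem ter_eq {W : Wp G} {t x : V} (ht : t ∈ W.ter) (hx : x ∈ W.ter)
    (h : Relation.EqvGen W.E x t) : x = t := by
  rcases Relation.ReflTransGen.cases_head (eqv_ter ht h) with h | ⟨y, e, _⟩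
  · exact h
  · exact (hx.2 y e).elim

theorem ter_notA {W : Wp G} {t z : V} (ht : t ∈ W.ter) (hz : z ≠ t)
    (h : Relation.EqvGen W.E z t) : t ∉ G.A := by
  rcases Relation.ReflTransGen.cases_tail (eqv_ter ht h) with h | ⟨y, _, e⟩
  · exact (hz h.symm).elim
  · exact W.notA e

/-- A vertex which can be deleted is not the terminal vertex of a wave. -/
theorem not_ter {D : Set V} {z : V} (hzA : z ∉ G.A) (hU : Unh G (D \ {z})) {W : Wp G}
    (hW : IsWave D W) : z ∉ W.ter := by
  intro hz
  obtain ⟨a, ha, haC, hae⟩ := exists_init W hz.1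
  have hwave : IsWave (D \ {z}) (rem W z) := by
    refine ⟨?_, ?_⟩
    · rintro v ⟨hv, hv'⟩
      refine ⟨hW.1 hv, ?_⟩
      rintro rfl
      exact hv' (Relation.EqvGen.refl _)
    · intro a ha haD he
      refine hW.2 a ha haD.1 (he.mono' ?_)
      intro x hx hx'
      refine ⟨hx.1, fun h => hx' (rem_ter.2 ⟨h, fun h' => hx.2 (ter_eq hz h h')⟩)⟩
  have h := hU _ hwave a ha ⟨hW.1 haC, by rintro rfl; exact hzA ha⟩
  exact h.2 hae

/-! ### Augmentation -/

section Aug

variable (H : Wp G) (D : Set V) (v₀ : V)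

open Classical in
/-- The partner of a vertex: its predecessor on `H`, or itself. -/
noncomputable def partner (y : V) : V := if h : ∃ u, H.E u y then h.choose else y

variable {H}

theorem partner_edge {y : V} (h : ∃ u, H.E u y) : H.E (partner H y) y := by
  unfold partner
  rw [dif_pos h]
  exact h.choose_spec

theorem partner_self {y : V} (h : ¬ ∃ u, H.E u y) : partner H y = y := by
  unfold partner
  rw [dif_neg h]

theorem partner_of_edge {u y : V} (h : H.E u y) : partner H y = u :=
  H.inn (partner_edge ⟨u, h⟩) h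

variable (H)

/-- The vertices reachable from an uncovered source by alternating walks. -/
inductive Reach : V → Prop
  | base {a : V} : a ∈ G.A → a ∈ D → a ∉ H.C → Reach a
  | step {u y : V} : Reach u → (u = y ∨ G.adj u y) → y ∈ D → y ∉ G.A → y ≠ v₀ →
      Reach (partner H y)

/-- `v₀` can be reached from `u` by an alternating walk of length `n`. -/
def Alt (G : Amb V) (D : Set V) (v₀ : V) (π : V → V) : ℕ → V → Prop
  | 0, u => G.adj u v₀
  | n + 1, u => ∃ y, y ∈ D ∧ y ∉ G.A ∧ y ≠ v₀ ∧ (u = y ∨ G.adj u y) ∧ Alt G D v₀ π n (π y)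

/-- The same, avoiding the vertex `z`. -/
def Alt' (G : Amb V) (D : Set V) (v₀ : V) (π : V → V) (z : V) : ℕ → V → Prop
  | 0, u => G.adj u v₀
  | n + 1, u => ∃ y, y ∈ D ∧ y ∉ G.A ∧ y ≠ v₀ ∧ (u = y ∨ G.adj u y) ∧ y ≠ z ∧
      Alt' G D v₀ π z n (π y)

theorem alt_cases (π : V → V) (z : V) : ∀ (n : ℕ) (u : V), Alt G D v₀ π n u →
    Alt' G D v₀ π z n u ∨ ∃ m < n, Alt G D v₀ π m (π z) := by
  intro n
  induction n with
  | zero => intro u h; exact Or.inl h
  | succ n ih =>
    rintro u ⟨y, h1, h2, h3, h4, h5⟩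
    by_cases hz : y = z
    · subst hz
      exact Or.inr ⟨n, Nat.lt_succ_self n, h5⟩
    · rcases ih _ h5 with h | ⟨m, hm, h⟩
      · exact Or.inl ⟨y, h1, h2, h3, h4, hz, h⟩
      · exact Or.inr ⟨m, Nat.lt_succ_of_lt hm, h⟩

theorem alt'_update [DecidableEq V] (π : V → V) (z w : V) : ∀ (n : ℕ) (u : V), Alt' G D v₀ π z n u →
    Alt G D v₀ (Function.update π z w) n u := by
  intro n
  induction n with
  | zero => intro u h; exact h
  | succ n ih =>
    rintro u ⟨y, h1, h2, h3, h4, h5, h6⟩
    refine ⟨y, h1, h2, h3, h4, ?_⟩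
    rw [Function.update_of_ne h5]
    exact ih _ h6

/-- A finite modification of the partner function all of whose values on `D \ A \ {v₀}` are legal. -/
structure Good (N : Set V) (π : V → V) : Prop where
  memD : ∀ y ∈ N, π y ∈ D
  ne : ∀ y ∈ N, π y ≠ v₀
  nt : ∀ y ∈ N, π y ∉ H.ter
  inj : ∀ y ∈ N, ∀ y' ∈ N, π y = π y' → y = y'
  adj : ∀ y ∈ N, π y = y ∨ G.adj (π y) y
  fin : {y | π y ≠ partner H y}.Finite

theorem augment_fun (hv₀A : v₀ ∉ G.A) :
    ∀ (n : ℕ) (π : V → V) (u : V), Good H D v₀ {y | y ∈ D ∧ y ∉ G.A ∧ y ≠ v₀} π →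
      u ∈ D → u ≠ v₀ → u ∉ H.ter → (∀ y, y ∈ D → y ∉ G.A → y ≠ v₀ → π y ≠ u) →
      Alt G D v₀ π n u → ∃ π', Good H D v₀ {y | y ∈ D ∧ y ∉ G.A} π' := by
  classical
  intro n
  induction n using Nat.strong_induction_on with
  | _ n ih =>
    intro π u hg huD hu0 hut hun halt
    by_cases hmin : ∃ m < n, Alt G D v₀ π m u
    · obtain ⟨m, hm, hmu⟩ := hmin
      exact ih m hm π u hg huD hu0 hut hun hmu
    · rcases n with _ | n
      · refine ⟨Function.update π v₀ u, ?_, ?_, ?_, ?_, ?_, ?_⟩
        · rintro y ⟨h1, h2⟩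
          by_cases hy : y = v₀
          · subst hy; rw [Function.update_self]; exact huD
          · rw [Function.update_of_ne hy]; exact hg.memD y ⟨h1, h2, hy⟩
        · rintro y ⟨h1, h2⟩
          by_cases hy : y = v₀
          · subst hy; rw [Function.update_self]; exact hu0
          · rw [Function.update_of_ne hy]; exact hg.ne y ⟨h1, h2, hy⟩
        · rintro y ⟨h1, h2⟩
          by_cases hy : y = v₀
          · subst hy; rw [Function.update_self]; exact hut
          · rw [Function.update_of_ne hy]; exact hg.nt y ⟨h1, h2, hy⟩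
        · rintro y ⟨h1, h2⟩ y' ⟨h1', h2'⟩
          by_cases hy : y = v₀
          · by_cases hy' : y' = v₀
            · intro _; rw [hy, hy']
            · rw [hy, Function.update_self, Function.update_of_ne hy']
              intro h
              exact (hun y' h1' h2' hy' h.symm).elim
          · by_cases hy' : y' = v₀
            · rw [hy', Function.update_self, Function.update_of_ne hy]
              intro h
              exact (hun y h1 h2 hy h).elim
            · rw [Function.update_of_ne hy, Function.update_of_ne hy']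
              exact hg.inj y ⟨h1, h2, hy⟩ y' ⟨h1', h2', hy'⟩
        · rintro y ⟨h1, h2⟩
          by_cases hy : y = v₀
          · subst hy; rw [Function.update_self]; exact Or.inr halt
          · rw [Function.update_of_ne hy]; exact hg.adj y ⟨h1, h2, hy⟩
        · refine (hg.fin.union (Set.finite_singleton v₀)).subset ?_
          intro y hy
          by_cases h : y = v₀
          · exact Or.inr h
          · left
            rw [Set.mem_ofPred_eq, Function.update_of_ne h] at hy
            exact hy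
      · obtain ⟨y, hyD, hyA, hy0, huy, halt'⟩ := halt
        have hav : Alt' G D v₀ π y n (π y) := by
          rcases alt_cases D v₀ π y n _ halt' with h | ⟨m, hm, h⟩
          · exact h
          · exact (hmin ⟨m + 1, Nat.succ_lt_succ hm, y, hyD, hyA, hy0, huy, h⟩).elim
        have hyN : y ∈ {y | y ∈ D ∧ y ∉ G.A ∧ y ≠ v₀} := ⟨hyD, hyA, hy0⟩
        refine ih n (Nat.lt_succ_self n) (Function.update π y u) (π y) ?_ (hg.memD y hyN)
          (hg.ne y hyN) (hg.nt y hyN) ?_ (alt'_update D v₀ π y u n _ hav)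
        · refine ⟨?_, ?_, ?_, ?_, ?_, ?_⟩
          · intro x hx
            by_cases h : x = y
            · subst h; rw [Function.update_self]; exact huD
            · rw [Function.update_of_ne h]; exact hg.memD x hx
          · intro x hx
            by_cases h : x = y
            · subst h; rw [Function.update_self]; exact hu0
            · rw [Function.update_of_ne h]; exact hg.ne x hx
          · intro x hx
            by_cases h : x = y
            · subst h; rw [Function.update_self]; exact hut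
            · rw [Function.update_of_ne h]; exact hg.nt x hx
          · intro x hx x' hx'
            by_cases h : x = y
            · by_cases h' : x' = y
              · intro _; rw [h, h']
              · rw [h, Function.update_self, Function.update_of_ne h']
                intro he
                exact (hun x' hx'.1 hx'.2.1 hx'.2.2 he.symm).elim
            · by_cases h' : x' = y
              · rw [h', Function.update_self, Function.update_of_ne h]
                intro he
                exact (hun x hx.1 hx.2.1 hx.2.2 he).elim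
              · rw [Function.update_of_ne h, Function.update_of_ne h']
                exact hg.inj x hx x' hx'
          · intro x hx
            by_cases h : x = y
            · subst h; rw [Function.update_self]; exact huy.imp (fun h => h) (fun h => h)
            · rw [Function.update_of_ne h]; exact hg.adj x hx
          · refine (hg.fin.union (Set.finite_singleton y)).subset ?_
            intro x hx
            by_cases h : x = y
            · exact Or.inr h
            · left
              rw [Set.mem_ofPred_eq, Function.update_of_ne h] at hx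
              exact hx
        · intro x hxD hxA hx0
          by_cases h : x = y
          · subst h; rw [Function.update_self]
            exact fun h => hun x hxD hxA hx0 h.symm
          · rw [Function.update_of_ne h]
            exact fun h' => h (hg.inj x ⟨hxD, hxA, hx0⟩ y hyN h')

/-- The vertices met when going back from `T`. -/
inductive Orb (G : Amb V) (T : Set V) (π : V → V) : V → Prop
  | base {t : V} : t ∈ T → Orb G T π t
  | step {y : V} : Orb G T π y → y ∉ G.A → Orb G T π (π y)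

theorem orb_mem {T : Set V} {π : V → V} (hT : T ⊆ D) (hg : Good H D v₀ {y | y ∈ D ∧ y ∉ G.A} π)
    {y : V} (h : Orb G T π y) : y ∈ D := by
  induction h with
  | base h => exact hT h
  | step _ h2 ih => exact hg.memD _ ⟨ih, h2⟩

theorem orb_ne {T : Set V} {π : V → V} (hT : T ⊆ D) (hT2 : ∀ y ∈ D, y ∉ G.A → π y ∉ T)
    (hg : Good H D v₀ {y | y ∈ D ∧ y ∉ G.A} π)
    {y : V} (h : Orb G T π y) : ∀ k : ℕ, (∀ i ≤ k, π^[i] y ∈ D ∧ π^[i] y ∉ G.A) →
      π^[k + 1] y ≠ y := by
  induction h with
  | base h =>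
    intro k hk he
    rw [Function.iterate_succ_apply'] at he
    exact hT2 _ (hk k le_rfl).1 (hk k le_rfl).2 (by rw [he]; exact h)
  | @step x h1 h2 ih =>
    intro k hk he
    have hx : x ∈ D := orb_mem H D v₀ hT hg h1
    have h3 : π (π^[k + 1] x) = π x := by
      rw [← Function.iterate_succ_apply' π, Function.iterate_succ_apply]
      exact he
    have h4 : π^[k + 1] x ∈ D ∧ π^[k + 1] x ∉ G.A := by
      rw [Function.iterate_succ_apply]
      exact hk k le_rfl
    have h5 := hg.inj _ h4 x ⟨hx, h2⟩ h3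
    refine ih k ?_ h5
    intro i hi
    rcases i with _ | i
    · exact ⟨hx, h2⟩
    · rw [Function.iterate_succ_apply]
      exact hk i (by omega)

theorem augment_wf {T : Set V} {π : V → V} (hT : T ⊆ D) (hT2 : ∀ y ∈ D, y ∉ G.A → π y ∉ T)
    (hg : Good H D v₀ {y | y ∈ D ∧ y ∉ G.A} π) :
    WellFounded (fun u y => Orb G T π y ∧ y ∉ G.A ∧ u = π y) := by
  rw [wellFounded_iff_isEmpty_descending_chain]
  refine ⟨?_⟩
  rintro ⟨x, hx⟩
  have hstep : ∀ n, x (n + 1) = π (x n) := fun n => (hx n).2.2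
  have hN : ∀ n, x n ∈ D ∧ x n ∉ G.A := fun n => ⟨orb_mem H D v₀ hT hg (hx n).1, (hx n).2.1⟩
  have hit : ∀ n k, x (n + k) = π^[k] (x n) := by
    intro n k
    induction k with
    | zero => rfl
    | succ k ih => rw [Function.iterate_succ_apply', ← ih, ← hstep]; rfl
  have hinj : Function.Injective x := by
    intro i j hij
    by_contra hne
    wlog hlt : i < j generalizing i j
    · exact this hij.symm (Ne.symm hne) (by omega)
    obtain ⟨k, rfl⟩ : ∃ k, j = i + (k + 1) := ⟨j - i - 1, by omega⟩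
    refine orb_ne H D v₀ hT hT2 hg (hx i).1 k ?_ ?_
    · intro m _
      rw [← hit]
      exact hN _
    · rw [← hit]
      exact hij.symm
  have hfin : {n | π (x n) ≠ partner H (x n)}.Finite :=
    hg.fin.preimage hinj.injOn
  obtain ⟨N, hNN⟩ := hfin.bddAbove
  have hag : ∀ n, N < n → π (x n) = partner H (x n) := by
    intro n hn
    by_contra h
    exact absurd (hNN h) (by omega)
  have hE : ∀ n, N < n → H.E (x (n + 1)) (x n) := by
    intro n hn
    have h1 : x (n + 1) = partner H (x n) := by rw [hstep, hag n hn]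
    by_cases he : ∃ u, H.E u (x n)
    · rw [h1]; exact partner_edge he
    · rw [partner_self he] at h1
      have := hinj h1
      omega
  have hwf := H.wf
  rw [wellFounded_iff_isEmpty_descending_chain] at hwf
  exact hwf.false ⟨fun n => x (N + 1 + n), fun n => hE (N + 1 + n) (by omega)⟩

/-- The augmented warp. -/
noncomputable def augWp {T : Set V} {π : V → V} (hT : T ⊆ D)
    (hT2 : ∀ y ∈ D, y ∉ G.A → π y ∉ T)
    (hg : Good H D v₀ {y | y ∈ D ∧ y ∉ G.A} π) : Wp G where
  C := {v | Orb G T π v}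
  E := fun u y => Orb G T π y ∧ y ∉ G.A ∧ u = π y
  adj := by
    rintro u v ⟨h1, h2, rfl⟩
    rcases hg.adj v ⟨orb_mem H D v₀ hT hg h1, h2⟩ with h | h
    · refine (orb_ne H D v₀ hT hT2 hg h1 0 ?_ h).elim
      intro i hi
      obtain rfl : i = 0 := by omega
      exact ⟨orb_mem H D v₀ hT hg h1, h2⟩
    · exact h
  memL := by
    rintro u v ⟨h1, h2, rfl⟩
    exact Orb.step h1 h2
  memR := fun h => h.1
  notA := fun h => h.2.1
  out := by
    rintro u v w ⟨h1, h2, h3⟩ ⟨h1', h2', h3'⟩
    exact hg.inj _ ⟨orb_mem H D v₀ hT hg h1, h2⟩ _ ⟨orb_mem H D v₀ hT hg h1', h2'⟩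
      (h3.symm.trans h3')
  inn := by
    rintro u v w ⟨h1, h2, h3⟩ ⟨h1', h2', h3'⟩
    rw [h3, h3']
  pre := by
    intro v h1 h2
    exact ⟨π v, h1, h2, rfl⟩
  wf := augment_wf H D v₀ hT hT2 hg

theorem augWp_ter {T : Set V} {π : V → V} (hT : T ⊆ D)
    (hT2 : ∀ y ∈ D, y ∉ G.A → π y ∉ T)
    (hg : Good H D v₀ {y | y ∈ D ∧ y ∉ G.A} π) : (augWp H D v₀ hT hT2 hg).ter = T := by
  ext t
  constructor
  · rintro ⟨h1, h2⟩
    have h1' : Orb G T π t := h1
    cases h1' with
    | base h => exact h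
    | @step y h3 h4 => exact (h2 y ⟨h3, h4, rfl⟩).elim
  · intro h
    refine ⟨Orb.base h, ?_⟩
    rintro y ⟨h1, h2, h3⟩
    exact hT2 y (orb_mem H D v₀ hT hg h1) h2 (h3 ▸ h)

variable {H D v₀}

theorem reach_props (hHD : H.C ⊆ D) (h0 : v₀ ∉ H.C) (h0A : v₀ ∉ G.A) {u : V}
    (h : Reach H D v₀ u) : u ∈ D ∧ u ≠ v₀ ∧ u ∉ H.ter := by
  cases h with
  | base h1 h2 h3 =>
    refine ⟨h2, ?_, fun h => h3 h.1⟩
    rintro rfl
    exact h0A h1
  | @step u' y h1 h2 h3 h4 h5 =>
    by_cases he : ∃ w, H.E w y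
    · have hp := partner_edge he
      refine ⟨hHD (H.memL hp), ?_, fun h => h.2 _ hp⟩
      intro h
      exact h0 (h ▸ H.memL hp)
    · rw [partner_self he]
      refine ⟨h3, h5, fun h => ?_⟩
      exact he (H.pre h.1 h4)

theorem reach_alt {u : V} (h : Reach H D v₀ u) : ∀ n, Alt G D v₀ (partner H) n u →
    ∃ a ∈ G.A, a ∈ D ∧ a ∉ H.C ∧ ∃ m, Alt G D v₀ (partner H) m a := by
  induction h with
  | @base a h1 h2 h3 => intro n h; exact ⟨a, h1, h2, h3, n, h⟩
  | @step u y h1 h2 h3 h4 h5 ih =>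
    intro n h
    exact ih (n + 1) ⟨y, h3, h4, h5, h2, h⟩

theorem good_partner (hHD : H.C ⊆ D) (h0 : v₀ ∉ H.C) :
    Good H D v₀ {y | y ∈ D ∧ y ∉ G.A ∧ y ≠ v₀} (partner H) := by
  refine ⟨?_, ?_, ?_, ?_, ?_, ?_⟩
  · rintro y ⟨h1, h2, h3⟩
    by_cases he : ∃ w, H.E w y
    · exact hHD (H.memL (partner_edge he))
    · rw [partner_self he]; exact h1
  · rintro y ⟨h1, h2, h3⟩
    by_cases he : ∃ w, H.E w y
    · exact fun h => h0 (h ▸ H.memL (partner_edge he))
    · rw [partner_self he]; exact h3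
  · rintro y ⟨h1, h2, h3⟩
    by_cases he : ∃ w, H.E w y
    · exact fun h => h.2 _ (partner_edge he)
    · rw [partner_self he]; exact fun h => he (H.pre h.1 h2)
  · rintro y ⟨h1, h2, h3⟩ y' ⟨h1', h2', h3'⟩ h
    by_cases he : ∃ w, H.E w y
    · by_cases he' : ∃ w, H.E w y'
      · exact H.out (partner_edge he) (h ▸ partner_edge he')
      · rw [partner_self he'] at h
        exact (he' (H.pre (h ▸ H.memL (partner_edge he)) h2')).elim
    · by_cases he' : ∃ w, H.E w y'
      · rw [partner_self he] at h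
        exact (he (H.pre (h ▸ H.memL (partner_edge he')) h2)).elim
      · rwa [partner_self he, partner_self he'] at h
  · rintro y ⟨h1, h2, h3⟩
    by_cases he : ∃ w, H.E w y
    · exact Or.inr (H.adj (partner_edge he))
    · exact Or.inl (partner_self he)
  · simp

/-- The part of `H` up to the last reachable vertices. -/
def trim (H : Wp G) (D : Set V) (v₀ : V) (hHD : H.C ⊆ D) (h0 : v₀ ∉ H.C) : Wp G where
  C := {x | x ∈ H.C ∧ (x ∈ G.A ∨ ∃ u, H.E u x ∧ Reach H D v₀ u)}
  E := fun u y => H.E u y ∧ Reach H D v₀ u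
  adj := fun h => H.adj h.1
  memL := by
    rintro u y ⟨h1, h2⟩
    refine ⟨H.memL h1, ?_⟩
    by_cases hA : u ∈ G.A
    · exact Or.inl hA
    · right
      obtain ⟨w, hw⟩ := H.pre (H.memL h1) hA
      refine ⟨w, hw, ?_⟩
      have := Reach.step h2 (Or.inl rfl) (hHD (H.memL h1)) hA
        (fun h => h0 (h ▸ H.memL h1))
      rwa [partner_of_edge hw] at this
  memR := fun {u y} h => ⟨H.memR h.1, Or.inr ⟨u, h⟩⟩
  notA := fun h => H.notA h.1
  out := fun h h' => H.out h.1 h'.1
  inn := fun h h' => H.inn h.1 h'.1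
  pre := by
    rintro v ⟨h1, h2 | ⟨u, h2⟩⟩ h3
    · exact (h3 h2).elim
    · exact ⟨u, h2⟩
  wf := Subrelation.wf (fun h => h.1) H.wf

theorem trim_esc (hHD : H.C ⊆ D) (h0 : v₀ ∉ H.C) (h0A : v₀ ∉ G.A)
    (hno : ∀ u, Reach H D v₀ u → ¬ G.adj u v₀) :
    ∀ v, Esc G D (trim H D v₀ hHD h0).ter v → Reach H D v₀ v → Esc G D (H.ter ∪ {v₀}) v := by
  intro v he
  have hT : ∀ v, Reach H D v₀ v → v ∉ H.ter ∪ {v₀} := by
    intro v hv h
    obtain ⟨-, h1, h2⟩ := reach_props hHD h0 h0A hv
    rcases h with h | h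
    · exact h2 h
    · exact h1 h
  have hin : ∀ w, w ∈ H.C → w ∉ (trim H D v₀ hHD h0).ter → (w ∈ G.A ∨ ∃ u, H.E u w ∧ Reach H D v₀ u) →
      Reach H D v₀ w := by
    intro w hw hn hor
    obtain ⟨y, hy⟩ := Wp.nonter (trim H D v₀ hHD h0) ⟨hw, hor⟩ hn
    exact hy.2
  induction he with
  | @base v h1 h2 h3 => intro hr; exact Esc.base h1 (hT v hr) h3
  | @step v w h1 h2 h3 h4 ih =>
    intro hr
    refine Esc.step h1 (hT v hr) h3 (ih ?_)
    have hwD := h4.mem
    have hwn := h4.not_mem
    by_cases hwA : w ∈ G.A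
    · by_cases hwC : w ∈ H.C
      · exact hin w hwC hwn (Or.inl hwA)
      · exact Reach.base hwA hwD hwC
    · have hw0 : w ≠ v₀ := by
        rintro rfl
        exact hno v hr h3
      have hs := Reach.step hr (Or.inr h3) hwD hwA hw0
      by_cases he : ∃ u, H.E u w
      · have hp := partner_edge he
        exact hin w (H.memR hp) hwn (Or.inr ⟨_, hp, hs⟩)
      · rwa [partner_self he] at hs

/-- **Augmentation lemma.**  If `H` together with `v₀` separates and `H` misses a source, then in an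
unhindered web there is a wave ending in `v₀`. -/
theorem exists_wave_ter (hU : Unh G D) (h0D : v₀ ∈ D) (h0A : v₀ ∉ G.A) (hHD : H.C ⊆ D)
    (h0 : v₀ ∉ H.C) (hsep : ∀ a ∈ G.A, a ∈ D → ¬ Esc G D (H.ter ∪ {v₀}) a)
    (hmiss : ∃ a ∈ G.A, a ∈ D ∧ a ∉ H.C) : ∃ W : Wp G, IsWave D W ∧ v₀ ∈ W.ter := by
  by_cases hr : ∃ u, Reach H D v₀ u ∧ G.adj u v₀
  · obtain ⟨u, hu, huv⟩ := hr
    obtain ⟨a, haA, haD, haC, m, hm⟩ := reach_alt hu 0 huv
    obtain ⟨π, hπ⟩ := augment_fun H D v₀ h0A m (partner H) a (good_partner hHD h0) haD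
      (fun h => h0A (h ▸ haA)) (fun h => haC h.1) (by
        intro y hyD hyA hy0 hy
        by_cases he : ∃ w, H.E w y
        · exact haC (hy ▸ H.memL (partner_edge he))
        · rw [partner_self he] at hy
          exact hyA (hy ▸ haA)) hm
    have hT : H.ter ∪ {v₀} ⊆ D := by
      rintro x (hx | hx)
      · exact hHD hx.1
      · rw [Set.mem_singleton_iff.1 hx]; exact h0D
    have hT2 : ∀ y ∈ D, y ∉ G.A → π y ∉ H.ter ∪ {v₀} := by
      rintro y hyD hyA (h | h)
      · exact hπ.nt y ⟨hyD, hyA⟩ h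
      · exact hπ.ne y ⟨hyD, hyA⟩ h
    refine ⟨augWp H D v₀ hT hT2 hπ, ⟨?_, ?_⟩, ?_⟩
    · intro x hx
      exact orb_mem H D v₀ hT hπ hx
    · rw [augWp_ter]; exact hsep
    · rw [augWp_ter]; exact Or.inr rfl
  · push Not at hr
    exfalso
    have hwave : IsWave D (trim H D v₀ hHD h0) := by
      refine ⟨fun x hx => hHD hx.1, ?_⟩
      intro a ha haD he
      refine hsep a ha haD (trim_esc hHD h0 h0A hr a he ?_)
      by_cases haC : a ∈ H.C
      · obtain ⟨y, hy⟩ := Wp.nonter (trim H D v₀ hHD h0) ⟨haC, Or.inl ha⟩ he.not_mem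
        exact hy.2
      · exact Reach.base ha haD haC
    obtain ⟨a, ha, haD, haC⟩ := hmiss
    exact haC (hU _ hwave a ha haD).1

end Aug

/-- If deleting `v₀` makes an unhindered web hindered, then `v₀` is a terminal vertex of a wave. -/
theorem exists_wave_of_hindered {D : Set V} {v₀ : V} (hU : Unh G D) (h0D : v₀ ∈ D)
    (h0A : v₀ ∉ G.A) (hh : ¬ Unh G (D \ {v₀})) : ∃ W : Wp G, IsWave D W ∧ v₀ ∈ W.ter := by
  unfold Unh at hh
  push Not at hh
  obtain ⟨H, hH, a, ha, haD, haC⟩ := hh
  refine exists_wave_ter (H := H) hU h0D h0A (fun x hx => (hH.1 hx).1)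
    (fun h => (hH.1 h).2 rfl) ?_ ⟨a, ha, haD.1, haC⟩
  intro a' ha' haD' he
  refine hH.2 a' ha' ⟨haD', ?_⟩ (he.mono' ?_)
  · rintro rfl; exact h0A ha'
  · intro x hx hx'
    exact ⟨⟨hx, fun h => hx' (Or.inr h)⟩, fun h => hx' (Or.inl h)⟩

/-- Deleting a deletable vertex does not shrink the roof of a wave. -/
theorem exists_wave_del {D : Set V} {z : V} (hU : Unh G D) (hzD : z ∈ D)
    (hzA : z ∉ G.A) (hUz : Unh G (D \ {z})) {W : Wp G} (hW : IsWave D W) :
    ∃ W' : Wp G, IsWave (D \ {z}) W' ∧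
      ∀ v, Esc G (D \ {z}) W'.ter v → Esc G D W.ter v := by
  by_cases hzC : z ∈ W.C
  · have hzt : z ∉ W.ter := not_ter hzA hUz hW
    obtain ⟨a, ha, haC, hae⟩ := exists_init W hzC
    by_cases hs : ∃ s ∈ W.ter, Relation.EqvGen W.E s z
    · obtain ⟨s, hs, hsz⟩ := hs
      have hzs : z ≠ s := by rintro rfl; exact hzt hs
      have hsA : s ∉ G.A := ter_notA hs hzs (Relation.EqvGen.symm _ _ hsz)
      have hJD : (rem W z).C ⊆ D \ {z} := by
        rintro v ⟨hv, hv'⟩
        refine ⟨hW.1 hv, ?_⟩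
        rintro rfl
        exact hv' (Relation.EqvGen.refl _)
      have hsJ : s ∉ (rem W z).C := fun h => h.2 hsz
      have hter : ∀ x, x ∈ W.ter → x ∈ (rem W z).ter ∪ {s} := by
        intro x hx
        by_cases hxz : Relation.EqvGen W.E x z
        · right
          exact ter_eq hs hx (Relation.EqvGen.trans _ _ _ hxz (Relation.EqvGen.symm _ _ hsz))
        · left
          exact rem_ter.2 ⟨hx, hxz⟩
      have hmono : ∀ x, Esc G (D \ {z}) ((rem W z).ter ∪ {s}) x → Esc G D W.ter x := by
        intro x hx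
        refine hx.mono' ?_
        intro y hy hy'
        exact ⟨hy.1, fun h => hy' (hter y h)⟩
      have hsep : ∀ a ∈ G.A, a ∈ D \ {z} → ¬ Esc G (D \ {z}) ((rem W z).ter ∪ {s}) a := by
        intro a ha haD he
        exact hW.2 a ha haD.1 (hmono a he)
      obtain ⟨W₁, hW₁, hs₁⟩ := exists_wave_ter (H := rem W z) (v₀ := s) hUz
        ⟨hW.1 hs.1, fun h => hzs h.symm⟩ hsA hJD hsJ hsep
        ⟨a, ha, ⟨hW.1 haC, by rintro rfl; exact hzA ha⟩, fun h => h.2 hae⟩
      have hT2 : ∀ {u y}, (rem W z).E u y → u ∉ (rem W z).ter ∪ {s} := by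
        rintro u y e (h | h)
        · exact h.2 y e
        · exact hsJ (h ▸ (rem W z).memL e)
      have hT3 : ∀ x ∈ (rem W z).ter ∪ {s}, x ∈ (rem W z).ter ∨ ¬ Esc G (D \ {z}) W₁.ter x := by
        rintro x (h | h)
        · exact Or.inl h
        · right
          rw [Set.mem_singleton_iff.1 h]
          exact fun h => h.not_mem hs₁
      refine ⟨arrow W₁ (rem W z) hW₁ hJD, arrow_wave W₁ (rem W z) hW₁ hJD _ hsep hT2 hT3, ?_⟩
      intro v hv
      exact hmono v (arrow_esc W₁ (rem W z) hW₁ hJD _ hsep hT2 hT3 hv).2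
    · push Not at hs
      exfalso
      have hwave : IsWave D (rem W z) := by
        refine ⟨fun v hv => hW.1 hv.1, ?_⟩
        intro a ha haD he
        refine hW.2 a ha haD (he.mono' ?_)
        intro x hx hx'
        exact ⟨hx, fun h => hx' (rem_ter.2 ⟨h, hs x h⟩)⟩
      exact (hU _ hwave a ha (hW.1 haC)).2 hae
  · refine ⟨W, ⟨?_, ?_⟩, ?_⟩
    · intro x hx
      refine ⟨hW.1 hx, ?_⟩
      rintro rfl
      exact hzC hx
    · intro a ha haD he
      exact hW.2 a ha haD.1 (he.mono Set.sdiff_subset subset_rfl)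
    · intro v hv
      exact hv.mono Set.sdiff_subset subset_rfl

end Pool.Agent.Helper860_Web
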