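import Mathlib

/-!
# Waves in webs: the internal calculus

A web is given by an adjacency relation and two sets `A`, `B`.  All the webs used here are obtained from it
by restricting to a set `D` of vertices.  A warp is stored as a set `C` of vertices together with the edges
`E` used by its paths; backward well-foundedness of `E` says that every path has an initial vertex.
-/

namespace Pool.Agent.Helper860_Web

universe u

/-- The data of an ambient web. -/
structure Amb (V : Type u) where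
  /-- the edges -/
  adj : V → V → Prop
  /-- the source side -/
  A : Set V
  /-- the target side -/
  B : Set V

variable {V : Type u} (G : Amb V)

/-- `Esc G D S v`: from `v` one can walk to `B` inside `D` while avoiding `S`. -/
inductive Esc (D S : Set V) : V → Prop
  | base {v : V} : v ∈ D → v ∉ S → v ∈ G.B → Esc D S v
  | step {v w : V} : v ∈ D → v ∉ S → G.adj v w → Esc D S w → Esc D S v

variable {G}

theorem Esc.mem {D S : Set V} {v : V} (h : Esc G D S v) : v ∈ D := by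
  cases h <;> assumption

theorem Esc.not_mem {D S : Set V} {v : V} (h : Esc G D S v) : v ∉ S := by
  cases h <;> assumption

theorem Esc.mono' {D S D' S' : Set V} (hh : ∀ x ∈ D, x ∉ S → x ∈ D' ∧ x ∉ S') {v : V}
    (h : Esc G D S v) : Esc G D' S' v := by
  induction h with
  | base h1 h2 h3 => exact Esc.base (hh _ h1 h2).1 (hh _ h1 h2).2 h3
  | step h1 h2 h3 _ ih => exact Esc.step (hh _ h1 h2).1 (hh _ h1 h2).2 h3 ih

theorem Esc.mono {D S D' S' : Set V} (hD : D ⊆ D') (hS : S' ⊆ S) {v : V}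
    (h : Esc G D S v) : Esc G D' S' v :=
  h.mono' fun _ h1 h2 => ⟨hD h1, fun h3 => h2 (hS h3)⟩

variable (G)

/-- A warp all of whose paths start in `A` and meet `A` only there. -/
structure Wp where
  /-- the vertices of the warp -/
  C : Set V
  /-- the edges of the warp -/
  E : V → V → Prop
  adj : ∀ {u v}, E u v → G.adj u v
  memL : ∀ {u v}, E u v → u ∈ C
  memR : ∀ {u v}, E u v → v ∈ C
  notA : ∀ {u v}, E u v → v ∉ G.A
  out : ∀ {u v w}, E u v → E u w → v = w
  inn : ∀ {u v w}, E u w → E v w → u = v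
  pre : ∀ {v}, v ∈ C → v ∉ G.A → ∃ u, E u v
  wf : WellFounded E

variable {G}

/-- The terminal vertices of a warp. -/
def Wp.ter (W : Wp G) : Set V := {v | v ∈ W.C ∧ ∀ u, ¬ W.E v u}

/-- A wave of the web restricted to `D`. -/
def IsWave (D : Set V) (W : Wp G) : Prop :=
  W.C ⊆ D ∧ ∀ a ∈ G.A, a ∈ D → ¬ Esc G D W.ter a

variable (G)

/-- The web restricted to `D` is unhindered. -/
def Unh (D : Set V) : Prop := ∀ W : Wp G, IsWave D W → ∀ a ∈ G.A, a ∈ D → a ∈ W.C

variable {G}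

theorem Wp.ter_sub (W : Wp G) : W.ter ⊆ W.C := fun _ h => h.1

theorem Wp.nonter (W : Wp G) {v : V} (hv : v ∈ W.C) (h : v ∉ W.ter) : ∃ u, W.E v u := by
  by_contra hcon
  push Not at hcon
  exact h ⟨hv, hcon⟩

/-- Going back along a warp. -/
theorem back (W : Wp G) {D S : Set V} (hD : W.C ⊆ D) (hS : ∀ {u y}, W.E u y → u ∉ S) {x : V}
    (hx : x ∈ W.C) (he : Esc G D S x) : ∃ a ∈ G.A, a ∈ D ∧ Esc G D S a := by
  induction x using W.wf.induction with
  | _ x ih =>
    by_cases hA : x ∈ G.A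
    · exact ⟨x, hA, hD hx, he⟩
    · obtain ⟨u, hu⟩ := W.pre hx hA
      exact ih u hu (W.memL hu) (Esc.step (hD (W.memL hu)) (hS hu) (W.adj hu) he)

/-- All vertices of a wave are roofed by it. -/
theorem IsWave.not_esc {D : Set V} {W : Wp G} (hW : IsWave D W) {x : V} (hx : x ∈ W.C) :
    ¬ Esc G D W.ter x := by
  intro he
  obtain ⟨a, ha, haD, hea⟩ := back W hW.1 (fun {u y} h h2 => h2.2 y h) hx he
  exact hW.2 a ha haD hea

/-- If `v` is roofed by `S` and is not in `S`, then so are its out-neighbours. -/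
theorem roof_step {D S : Set V} {v w : V} (hv : v ∈ D) (hS : v ∉ S) (h : ¬ Esc G D S v)
    (ha : G.adj v w) : ¬ Esc G D S w := fun he => h (Esc.step hv hS ha he)

theorem roof_base {D S : Set V} {v : V} (hv : v ∈ D) (h : ¬ Esc G D S v)
    (hb : v ∈ G.B) : v ∈ S := by
  by_contra hS
  exact h (Esc.base hv hS hb)

/-- `Ext W W'`: every path of `W` is an initial segment of a path of `W'`. -/
def Ext (W W' : Wp G) : Prop :=
  W.C ⊆ W'.C ∧ (∀ {u v}, W.E u v → W'.E u v) ∧ ∀ {u v}, W'.E u v → v ∈ W.C → W.E u v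

theorem Ext.refl (W : Wp G) : Ext W W := ⟨subset_rfl, fun h => h, fun h _ => h⟩

theorem Ext.trans {W₁ W₂ W₃ : Wp G} (h : Ext W₁ W₂) (h' : Ext W₂ W₃) : Ext W₁ W₃ :=
  ⟨h.1.trans h'.1, fun e => h'.2.1 (h.2.1 e), fun e hv => h.2.2 (h'.2.2 e (h.1 hv)) hv⟩

/-- Roofs grow along extensions of waves. -/
theorem Ext.esc {D : Set V} {W W' : Wp G} (h : Ext W W') (hW' : IsWave D W')
    {v : V} (he : Esc G D W'.ter v) : Esc G D W.ter v := by
  have key : ∀ x ∈ W.ter, ¬ Esc G D W'.ter x := fun x hx hx' =>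
    hW'.not_esc (h.1 hx.1) hx'
  induction he with
  | base h1 h2 h3 =>
    by_contra hcon
    exact key _ (roof_base h1 hcon h3) (Esc.base h1 h2 h3)
  | step h1 h2 h3 h4 ih =>
    refine Esc.step h1 (fun h5 => key _ h5 (Esc.step h1 h2 h3 h4)) h3 ih

/-! ### Unions of chains -/

theorem chain_total {c : Set (Wp G)} (hc : IsChain Ext c) {W W' : Wp G} (h : W ∈ c) (h' : W' ∈ c) :
    Ext W W' ∨ Ext W' W := by
  by_cases he : W = W'
  · subst he; exact Or.inl (Ext.refl _)
  · exact hc h h' he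

/-- The union of a chain of warps. -/
def chainUnion (c : Set (Wp G)) (hc : IsChain Ext c) : Wp G where
  C := {v | ∃ W ∈ c, v ∈ W.C}
  E := fun u v => ∃ W ∈ c, W.E u v
  adj := fun ⟨W, _, e⟩ => W.adj e
  memL := fun ⟨W, h, e⟩ => ⟨W, h, W.memL e⟩
  memR := fun ⟨W, h, e⟩ => ⟨W, h, W.memR e⟩
  notA := fun ⟨W, _, e⟩ => W.notA e
  out := by
    rintro u v w ⟨W₁, h₁, e₁⟩ ⟨W₂, h₂, e₂⟩
    rcases chain_total hc h₁ h₂ with h | h
    · exact W₂.out (h.2.1 e₁) e₂
    · exact W₁.out e₁ (h.2.1 e₂)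
  inn := by
    rintro u v w ⟨W₁, h₁, e₁⟩ ⟨W₂, h₂, e₂⟩
    rcases chain_total hc h₁ h₂ with h | h
    · exact W₂.inn (h.2.1 e₁) e₂
    · exact W₁.inn e₁ (h.2.1 e₂)
  pre := by
    rintro v ⟨W, h, hv⟩ hA
    obtain ⟨u, hu⟩ := W.pre hv hA
    exact ⟨u, W, h, hu⟩
  wf := by
    have key : ∀ W ∈ c, ∀ v, v ∈ W.C → Acc (fun u v => ∃ W ∈ c, W.E u v) v := by
      intro W hW v
      induction v using W.wf.induction with
      | _ v ih =>
        intro hv
        refine Acc.intro _ ?_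
        rintro u ⟨W', hW', e⟩
        have e' : W.E u v := by
          rcases chain_total hc hW hW' with h | h
          · exact h.2.2 e hv
          · exact h.2.1 e
        exact ih u e' (W.memL e')
    refine ⟨fun v => Acc.intro _ ?_⟩
    rintro u ⟨W, hW, e⟩
    exact key W hW u (W.memL e)

theorem ext_chainUnion (c : Set (Wp G)) (hc : IsChain Ext c) {W : Wp G} (hW : W ∈ c) :
    Ext W (chainUnion c hc) := by
  refine ⟨fun v hv => ⟨W, hW, hv⟩, fun e => ⟨W, hW, e⟩, ?_⟩
  rintro u v ⟨W', hW', e⟩ hv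
  rcases chain_total hc hW hW' with h | h
  · exact h.2.2 e hv
  · exact h.2.1 e

theorem chainUnion_wave {D : Set V} (c : Set (Wp G)) (hc : IsChain Ext c) (hne : c.Nonempty)
    (hw : ∀ W ∈ c, IsWave D W) : IsWave D (chainUnion c hc) := by
  have key : ∀ v, Esc G D (chainUnion c hc).ter v → ∀ W ∈ c, Esc G D W.ter v := by
    intro v he
    have aux : ∀ x, x ∈ D → x ∉ (chainUnion c hc).ter → (∀ W ∈ c, x ∈ W.ter → False) ∨
        ∃ W ∈ c, x ∈ W.ter ∧ ∃ y, ∃ W' ∈ c, W'.E x y ∧ Ext W W' := by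
      intro x _ hx
      by_cases hh : ∀ W ∈ c, x ∈ W.ter → False
      · exact Or.inl hh
      · push Not at hh
        obtain ⟨W, hW, hxW, -⟩ := hh
        right
        obtain ⟨y, W', hW', e⟩ := Wp.nonter (chainUnion c hc) ⟨W, hW, hxW.1⟩ hx
        rcases chain_total hc hW hW' with h | h
        · exact ⟨W, hW, hxW, y, W', hW', e, h⟩
        · exact absurd (h.2.1 e) (hxW.2 y)
    induction he with
    | @base v h1 h2 h3 =>
      intro W hW
      by_contra hcon
      have h4 := roof_base h1 hcon h3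
      rcases aux v h1 h2 with h | ⟨W₁, hW₁, hv₁, y, W', hW', e, hx⟩
      · exact h W hW h4
      · have h5 : ¬ Esc G D W'.ter v := (hw W' hW').not_esc (W'.memL e)
        have h6 := roof_base h1 h5 h3
        exact h6.2 y e
    | @step v w h1 h2 h3 h4 ih =>
      intro W hW
      by_contra hcon
      have h5 : v ∈ W.ter := by
        by_contra h6
        exact hcon (Esc.step h1 h6 h3 (ih W hW))
      rcases aux v h1 h2 with h | ⟨W₁, hW₁, hv₁, y, W', hW', e, hx⟩
      · exact h W hW h5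
      · have h7 : ¬ Esc G D W'.ter v := (hw W' hW').not_esc (W'.memL e)
        have h8 : v ∉ W'.ter := fun h => h.2 y e
        exact h7 (Esc.step h1 h8 h3 (ih W' hW'))
  refine ⟨?_, ?_⟩
  · rintro v ⟨W, hW, hv⟩
    exact (hw W hW).1 hv
  · intro a ha haD he
    obtain ⟨W, hW⟩ := hne
    exact (hw W hW).2 a ha haD (key a he W hW)

/-! ### Joining two waves -/

/-- Continue the wave `U` outside its roof along the paths of the warp `W`. -/
def arrow {D : Set V} (U W : Wp G) (hU : IsWave D U) (hW : W.C ⊆ D) : Wp G where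
  C := {v | v ∈ U.C ∨ (v ∈ W.C ∧ Esc G D U.ter v)}
  E := fun u v => U.E u v ∨ (W.E u v ∧ Esc G D U.ter v)
  adj := fun h => h.elim U.adj (fun h => W.adj h.1)
  memL := by
    rintro u v (e | ⟨e, h⟩)
    · exact Or.inl (U.memL e)
    · by_cases hu : u ∈ U.ter
      · exact Or.inl hu.1
      · exact Or.inr ⟨W.memL e, Esc.step (hW (W.memL e)) hu (W.adj e) h⟩
  memR := by
    rintro u v (e | ⟨e, h⟩)
    · exact Or.inl (U.memR e)
    · exact Or.inr ⟨W.memR e, h⟩
  notA := fun h => h.elim U.notA (fun h => W.notA h.1)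
  out := by
    have key : ∀ {u v w}, U.E u v → W.E u w → Esc G D U.ter w → False := by
      intro u v w e e' h
      have hu : u ∉ U.ter := fun h => h.2 v e
      exact hU.not_esc (U.memL e) (Esc.step (hW (W.memL e')) hu (W.adj e') h)
    rintro u v w (e | ⟨e, h⟩) (e' | ⟨e', h'⟩)
    · exact U.out e e'
    · exact (key e e' h').elim
    · exact (key e' e h).elim
    · exact W.out e e'
  inn := by
    rintro u v w (e | ⟨e, h⟩) (e' | ⟨e', h'⟩)
    · exact U.inn e e'
    · exact (hU.not_esc (U.memR e) h').elim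
    · exact (hU.not_esc (U.memR e') h).elim
    · exact W.inn e e'
  pre := by
    rintro v (h | ⟨h, h'⟩) hA
    · obtain ⟨u, hu⟩ := U.pre h hA
      exact ⟨u, Or.inl hu⟩
    · obtain ⟨u, hu⟩ := W.pre h hA
      exact ⟨u, Or.inr ⟨hu, h'⟩⟩
  wf := by
    have h1 : ∀ v, v ∈ U.C → Acc (fun u v => U.E u v ∨ (W.E u v ∧ Esc G D U.ter v)) v := by
      intro v
      induction v using U.wf.induction with
      | _ v ih =>
        intro hv
        refine Acc.intro _ ?_
        rintro u (e | ⟨e, h⟩)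
        · exact ih u e (U.memL e)
        · exact (hU.not_esc hv h).elim
    refine ⟨fun v => ?_⟩
    induction v using W.wf.induction with
    | _ v ih =>
      refine Acc.intro _ ?_
      rintro u (e | ⟨e, h⟩)
      · exact h1 u (U.memL e)
      · exact ih u e

theorem ext_arrow {D : Set V} (U W : Wp G) (hU : IsWave D U) (hW : W.C ⊆ D) :
    Ext U (arrow U W hU hW) := by
  refine ⟨fun v hv => Or.inl hv, fun e => Or.inl e, ?_⟩
  rintro u v (e | ⟨e, h⟩) hv
  · exact e
  · exact (hU.not_esc hv h).elim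

/-- The key property of the join. -/
theorem arrow_esc {D : Set V} (U W : Wp G) (hU : IsWave D U) (hW : W.C ⊆ D) (T : Set V)
    (hT : ∀ a ∈ G.A, a ∈ D → ¬ Esc G D T a) (hT2 : ∀ {u y}, W.E u y → u ∉ T)
    (hT3 : ∀ x ∈ T, x ∈ W.ter ∨ ¬ Esc G D U.ter x) {v : V}
    (he : Esc G D (arrow U W hU hW).ter v) : Esc G D U.ter v ∧ Esc G D T v := by
  have nt : ∀ v, v ∈ U.ter → v ∉ (arrow U W hU hW).ter → ∃ y, W.E v y := by
    intro v hv hn
    obtain ⟨y, e | ⟨e, h⟩⟩ := Wp.nonter (arrow U W hU hW) (Or.inl hv.1) hn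
    · exact (hv.2 y e).elim
    · exact ⟨y, e⟩
  have bk : ∀ v y, W.E v y → Esc G D T v → False := by
    intro v y e h
    obtain ⟨a, ha, haD, h'⟩ := back W hW hT2 (W.memL e) h
    exact hT a ha haD h'
  have tm : ∀ v, v ∈ T → v ∉ (arrow U W hU hW).ter → ¬ Esc G D U.ter v := by
    intro v hv hn h
    rcases hT3 v hv with h1 | h1
    · apply hn
      refine ⟨Or.inr ⟨h1.1, h⟩, ?_⟩
      rintro u (e | ⟨e, _⟩)
      · exact hU.not_esc (U.memL e) h
      · exact h1.2 u e
    · exact h1 h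
  induction he with
  | @base v h1 h2 h3 =>
    have hUv : Esc G D U.ter v := by
      by_contra hcon
      have hv := roof_base h1 hcon h3
      obtain ⟨y, e⟩ := nt v hv h2
      exact bk v y e (Esc.base h1 (hT2 e) h3)
    refine ⟨hUv, ?_⟩
    by_contra hcon
    exact tm v (roof_base h1 hcon h3) h2 hUv
  | @step v w h1 h2 h3 h4 ih =>
    have hUv : Esc G D U.ter v := by
      by_contra hcon
      have hv : v ∈ U.ter := by
        by_contra h6
        exact hcon (Esc.step h1 h6 h3 ih.1)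
      obtain ⟨y, e⟩ := nt v hv h2
      exact bk v y e (Esc.step h1 (hT2 e) h3 ih.2)
    refine ⟨hUv, ?_⟩
    by_contra hcon
    have hv : v ∈ T := by
      by_contra h6
      exact hcon (Esc.step h1 h6 h3 ih.2)
    exact tm v hv h2 hUv

theorem arrow_wave {D : Set V} (U W : Wp G) (hU : IsWave D U) (hW : W.C ⊆ D) (T : Set V)
    (hT : ∀ a ∈ G.A, a ∈ D → ¬ Esc G D T a) (hT2 : ∀ {u y}, W.E u y → u ∉ T)
    (hT3 : ∀ x ∈ T, x ∈ W.ter ∨ ¬ Esc G D U.ter x) : IsWave D (arrow U W hU hW) := by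
  refine ⟨?_, ?_⟩
  · rintro v (h | ⟨h, _⟩)
    · exact hU.1 h
    · exact hW h
  · intro a ha haD he
    exact hU.2 a ha haD (arrow_esc U W hU hW T hT hT2 hT3 he).1

/-- Among the waves contained in a set `K` there is one whose roof contains all the roofs of the others. -/
theorem exists_max_wave {D K : Set V} (W₀ : Wp G) (h₀ : IsWave D W₀) (hK : W₀.C ⊆ K) :
    ∃ U : Wp G, IsWave D U ∧ U.C ⊆ K ∧
      ∀ W : Wp G, IsWave D W → W.C ⊆ K → ∀ v, Esc G D U.ter v → Esc G D W.ter v := by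
  let T := {W : Wp G // IsWave D W ∧ W.C ⊆ K}
  have hz : ∃ m : T, ∀ a : T, Ext m.1 a.1 → Ext a.1 m.1 := by
    refine exists_maximal_of_chains_bounded (r := fun a b : T => Ext a.1 b.1) ?_
      (fun h h' => Ext.trans h h')
    intro c hc
    by_cases hne : c.Nonempty
    · have hc' : IsChain Ext (Subtype.val '' c) := by
        rintro _ ⟨x, hx, rfl⟩ _ ⟨y, hy, rfl⟩ hxy
        exact hc hx hy (fun h => hxy (by rw [h]))
      refine ⟨⟨chainUnion (Subtype.val '' c) hc', ?_, ?_⟩, ?_⟩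
      · refine chainUnion_wave _ hc' (hne.image _) ?_
        rintro _ ⟨x, _, rfl⟩
        exact x.2.1
      · rintro v ⟨_, ⟨x, _, rfl⟩, hv⟩
        exact x.2.2 hv
      · intro a ha
        exact ext_chainUnion _ hc' ⟨a, ha, rfl⟩
    · refine ⟨⟨W₀, h₀, hK⟩, fun a ha => ?_⟩
      exact (hne ⟨a, ha⟩).elim
  obtain ⟨m, hm⟩ := hz
  refine ⟨m.1, m.2.1, m.2.2, ?_⟩
  intro W hW hWK v hv
  have hT : ∀ a ∈ G.A, a ∈ D → ¬ Esc G D W.ter a := hW.2
  have hT2 : ∀ {u y}, W.E u y → u ∉ W.ter := fun {u y} e h => h.2 y e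
  have hT3 : ∀ x ∈ W.ter, x ∈ W.ter ∨ ¬ Esc G D m.1.ter x := fun x hx => Or.inl hx
  have hwave := arrow_wave m.1 W m.2.1 hW.1 W.ter hT hT2 hT3
  let m' : T := ⟨arrow m.1 W m.2.1 hW.1, hwave, by
    rintro v (h | ⟨h, _⟩)
    · exact m.2.2 h
    · exact hWK h⟩
  have h1 : Ext m'.1 m.1 := hm m' (ext_arrow m.1 W m.2.1 hW.1)
  have h2 : Esc G D m'.1.ter v := h1.esc m.2.1 hv
  exact (arrow_esc m.1 W m.2.1 hW.1 W.ter hT hT2 hT3 h2).2

end Pool.Agent.Helper860_Web
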