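import Pool.Agent.Helper860_Web.Augment

/-!
# The main argument
-/

namespace Pool.Agent.Helper860_Web

universe u

variable {V : Type u} {G : Amb V}

/-- The trivial wave. -/
def triv (G : Amb V) (D : Set V) : Wp G where
  C := {x | x ∈ G.A ∧ x ∈ D}
  E := fun _ _ => False
  adj := fun h => h.elim
  memL := fun h => h.elim
  memR := fun h => h.elim
  notA := fun h => h.elim
  out := fun h => h.elim
  inn := fun h => h.elim
  pre := fun h h' => (h' h.1).elim
  wf := ⟨fun _ => Acc.intro _ (fun _ h => h.elim)⟩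

theorem triv_wave (D : Set V) : IsWave D (triv G D) := by
  refine ⟨fun x hx => hx.2, ?_⟩
  intro a ha haD he
  exact he.not_mem ⟨⟨ha, haD⟩, fun _ h => h⟩

/-- The allowed vertices when `a` and `X` have been deleted. -/
def Dl (D₀ : Set V) (a : V) (X : Set V) : Set V := {v | v ∈ D₀ ∧ v ≠ a ∧ v ∉ X}

theorem Dl_insert (D₀ : Set V) (a : V) (X : Set V) (z : V) :
    Dl D₀ a (insert z X) = Dl D₀ a X \ {z} := by
  ext v
  simp only [Dl, Set.mem_insert_iff, Set.mem_sdiff, Set.mem_singleton_iff, Set.mem_ofPred_eq]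
  tauto

theorem Dl_anti {D₀ : Set V} {a : V} {X Y : Set V} (h : X ⊆ Y) : Dl D₀ a Y ⊆ Dl D₀ a X :=
  fun _ hv => ⟨hv.1, hv.2.1, fun h' => hv.2.2 (h h')⟩

/-- The vertices roofed by waves after the deletion of `a` and `F`. -/
def rho (G : Amb V) (D₀ : Set V) (a : V) (F : Set V) : Set V :=
  {v | v ∈ Dl D₀ a F ∧ ∃ W : Wp G, IsWave (Dl D₀ a F) W ∧ ¬ Esc G (Dl D₀ a F) W.ter v}

theorem exists_rho_wave (D₀ : Set V) (a : V) (F : Set V) :
    ∃ U : Wp G, IsWave (Dl D₀ a F) U ∧ ∀ v ∈ rho G D₀ a F, ¬ Esc G (Dl D₀ a F) U.ter v := by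
  obtain ⟨U, h1, -, h2⟩ := exists_max_wave (K := Set.univ) (triv G (Dl D₀ a F)) (triv_wave _)
    (Set.subset_univ _)
  refine ⟨U, h1, ?_⟩
  rintro v ⟨_, W, hW, hv⟩ he
  exact hv (h2 W hW (Set.subset_univ _) v he)

section

variable {D₀ : Set V} {a : V} {Z : Set V}

theorem rho_step (hZA : ∀ z ∈ Z, z ∉ G.A) (hZD : Z ⊆ D₀) (haA : a ∈ G.A)
    (hfree : ∀ F : Finset V, (F : Set V) ⊆ Z → Unh G (Dl D₀ a F))
    {F : Finset V} (hF : (F : Set V) ⊆ Z) {z v : V} (hz : z ∈ Z) (hzF : z ∉ F)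
    (hv : v ∈ rho G D₀ a F) (hvz : v ≠ z) : v ∈ rho G D₀ a (insert z (F : Set V)) := by
  classical
  obtain ⟨W, hW, hWv⟩ := hv.2
  have hUz : Unh G (Dl D₀ a F \ {z}) := by
    rw [← Dl_insert, ← Finset.coe_insert]
    exact hfree _ (by rw [Finset.coe_insert]; exact Set.insert_subset hz hF)
  have hzD : z ∈ Dl D₀ a (F : Set V) :=
    ⟨hZD hz, fun h => hZA z hz (h ▸ haA), fun h => hzF (Finset.mem_coe.1 h)⟩
  obtain ⟨W', hW', hW'v⟩ := exists_wave_del (hfree F hF) hzD (hZA z hz) hUz hW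
  rw [← Dl_insert] at hW' hW'v
  refine ⟨?_, W', hW', fun h => hWv (hW'v v h)⟩
  rw [Dl_insert]
  exact ⟨hv.1, hvz⟩

theorem rho_mono (hZA : ∀ z ∈ Z, z ∉ G.A) (hZD : Z ⊆ D₀) (haA : a ∈ G.A)
    (hfree : ∀ F : Finset V, (F : Set V) ⊆ Z → Unh G (Dl D₀ a F))
    {F F' : Finset V} (hFF' : F ⊆ F') (hF' : (F' : Set V) ⊆ Z) {v : V}
    (hv : v ∈ rho G D₀ a F) (hvF : v ∉ F') : v ∈ rho G D₀ a F' := by
  classical
  have key : ∀ F'' : Finset V, (F'' : Set V) ⊆ Z → v ∉ F'' →
      v ∈ rho G D₀ a ((F ∪ F'' : Finset V) : Set V) := by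
    intro F''
    induction F'' using Finset.induction_on with
    | empty => intro _ _; simpa using hv
    | insert z F'' hz ih =>
      intro h1 h2
      rw [Finset.mem_insert, not_or] at h2
      have h3 : (F'' : Set V) ⊆ Z := fun x hx => h1 (by simp [Finset.mem_coe.1 hx])
      have h4 := ih h3 h2.2
      by_cases hzF : z ∈ F ∪ F''
      · have : F ∪ insert z F'' = F ∪ F'' := by
          rw [Finset.union_insert, Finset.insert_eq_of_mem hzF]
        rw [this]; exact h4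
      · rw [Finset.union_insert, Finset.coe_insert]
        refine rho_step hZA hZD haA hfree ?_ (h1 (by simp)) hzF h4 h2.1
        rw [Finset.coe_union]
        exact Set.union_subset (fun x hx => hF' (hFF' hx)) h3
  have := key F' hF' hvF
  rwa [Finset.union_eq_right.2 hFF'] at this

theorem rho_del (hZA : ∀ z ∈ Z, z ∉ G.A) (hZD : Z ⊆ D₀) (haA : a ∈ G.A)
    (hfree : ∀ F : Finset V, (F : Set V) ⊆ Z → Unh G (Dl D₀ a F))
    {F : Finset V} (hF : (F : Set V) ⊆ Z) {z : V} (hz : z ∈ Z) (hzr : z ∈ rho G D₀ a F) :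
    rho G D₀ a (insert z (F : Set V)) ⊆ rho G D₀ a F := by
  classical
  have hzF : z ∉ F := fun h => hzr.1.2.2 (Finset.mem_coe.2 h)
  have hUz : Unh G (Dl D₀ a F \ {z}) := by
    rw [← Dl_insert, ← Finset.coe_insert]
    exact hfree _ (by rw [Finset.coe_insert]; exact Set.insert_subset hz hF)
  obtain ⟨U, hU, hUr⟩ := exists_rho_wave (G := G) D₀ a (F : Set V)
  obtain ⟨U', hU', hUr'⟩ := exists_rho_wave (G := G) D₀ a (insert z (F : Set V))
  have hzU : z ∉ U.ter := not_ter (hZA z hz) hUz hU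
  set D := Dl D₀ a (F : Set V) with hD
  set D' := Dl D₀ a (insert z (F : Set V)) with hD'
  have hDD' : D' = D \ {z} := Dl_insert _ _ _ _
  have r1 : ∀ x ∈ D, x ∉ rho G D₀ a F → Esc G D U.ter x := by
    intro x hx h
    by_contra hcon
    exact h ⟨hx, U, hU, hcon⟩
  have r2 : ∀ x ∈ D', x ∉ rho G D₀ a (insert z (F : Set V)) → Esc G D' U'.ter x := by
    intro x hx h
    by_contra hcon
    exact h ⟨hx, U', hU', hcon⟩
  have claim : ∀ v, Esc G D U'.ter v → v ∉ rho G D₀ a F ∧ v ∉ rho G D₀ a (insert z (F : Set V)) := by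
    intro v he
    induction he with
    | @base v h1 h2 h3 =>
      have hn : v ∉ rho G D₀ a (insert z (F : Set V)) := fun h =>
        h2 (roof_base h.1 (hUr' v h) h3)
      refine ⟨fun h => ?_, hn⟩
      have h4 := roof_base h1 (hUr v h) h3
      have hvz : v ≠ z := fun h => hzU (h ▸ h4)
      exact hn (rho_step hZA hZD haA hfree hF hz hzF h hvz)
    | @step v w h1 h2 h3 h4 ih =>
      have hwz : w ≠ z := fun h => ih.1 (h ▸ hzr)
      have hwD' : w ∈ D' := by rw [hDD']; exact ⟨h4.mem, hwz⟩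
      have hn : v ∉ rho G D₀ a (insert z (F : Set V)) := fun h =>
        hUr' v h (Esc.step h.1 h2 h3 (r2 w hwD' ih.2))
      refine ⟨fun h => ?_, hn⟩
      have h5 : v ∈ U.ter := by
        by_contra h6
        exact hUr v h (Esc.step h1 h6 h3 (r1 w h4.mem ih.1))
      have hvz : v ≠ z := fun h => hzU (h ▸ h5)
      exact hn (rho_step hZA hZD haA hfree hF hz hzF h hvz)
  have hwave : IsWave D U' := by
    refine ⟨fun x hx => ?_, ?_⟩
    · have := hU'.1 hx
      rw [hDD'] at this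
      exact this.1
    · intro a' ha' haD' he
      have h1 : a' ∈ D' := by
        rw [hDD']
        exact ⟨haD', fun h => hZA z hz (by rw [← Set.mem_singleton_iff.1 h]; exact ha')⟩
      exact (claim a' he).2 ⟨h1, U', hU', hU'.2 a' ha' h1⟩
  intro v hv
  have hvD : v ∈ D := by
    have := hv.1
    rw [← hD', hDD'] at this
    exact this.1
  exact ⟨hvD, U', hwave, fun he => (claim v he).2 hv⟩

theorem rho_del_many (hZA : ∀ z ∈ Z, z ∉ G.A) (hZD : Z ⊆ D₀) (haA : a ∈ G.A)
    (hfree : ∀ F : Finset V, (F : Set V) ⊆ Z → Unh G (Dl D₀ a F))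
    {F F' : Finset V} (hFF' : F ⊆ F') (hF' : (F' : Set V) ⊆ Z)
    (h : ∀ x ∈ F', x ∉ F → x ∈ rho G D₀ a F) : rho G D₀ a F' ⊆ rho G D₀ a F := by
  classical
  have key : ∀ F'' : Finset V, F'' ⊆ F' →
      rho G D₀ a ((F ∪ F'' : Finset V) : Set V) ⊆ rho G D₀ a F := by
    intro F''
    induction F'' using Finset.induction_on with
    | empty => intro _; simp
    | insert z F'' hz ih =>
      intro h1
      have h3 : F'' ⊆ F' := fun x hx => h1 (Finset.mem_insert_of_mem hx)
      have h4 := ih h3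
      by_cases hzF : z ∈ F ∪ F''
      · have : F ∪ insert z F'' = F ∪ F'' := by
          rw [Finset.union_insert, Finset.insert_eq_of_mem hzF]
        rw [this]; exact h4
      · have hzF' : z ∈ F' := h1 (Finset.mem_insert_self _ _)
        have hsub : ((F ∪ F'' : Finset V) : Set V) ⊆ Z := by
          rw [Finset.coe_union]
          exact Set.union_subset (fun x hx => hF' (hFF' hx)) (fun x hx => hF' (h3 hx))
        have hzr : z ∈ rho G D₀ a ((F ∪ F'' : Finset V) : Set V) :=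
          rho_mono hZA hZD haA hfree Finset.subset_union_left hsub
            (h z hzF' (fun h => hzF (Finset.mem_union_left _ h))) hzF
        rw [Finset.union_insert, Finset.coe_insert]
        exact (rho_del hZA hZD haA hfree hsub (hF' hzF') hzr).trans h4
  have := key F' subset_rfl
  rwa [Finset.union_eq_right.2 hFF'] at this

/-! ### Countable subsets of `Z` -/

open Classical in
/-- Greedy selection along a sequence. -/
noncomputable def Es (G : Amb V) (D₀ : Set V) (a : V) (Z : Set V) (z : ℕ → V) : ℕ → Finset V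
  | 0 => ∅
  | n + 1 => if z n ∈ Z ∧ z n ∉ rho G D₀ a (Es G D₀ a Z z n) then
      insert (z n) (Es G D₀ a Z z n) else Es G D₀ a Z z n

theorem Es_mem {z : ℕ → V} {n : ℕ} {x : V} (h : x ∈ Es G D₀ a Z z n) :
    x ∈ Z ∧ ∃ k < n, z k = x := by
  classical
  induction n with
  | zero => simp [Es] at h
  | succ n ih =>
    rw [Es] at h
    split_ifs at h with h1
    · rcases Finset.mem_insert.1 h with rfl | h
      · exact ⟨h1.1, n, Nat.lt_succ_self n, rfl⟩
      · obtain ⟨h2, k, hk, h3⟩ := ih h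
        exact ⟨h2, k, by omega, h3⟩
    · obtain ⟨h2, k, hk, h3⟩ := ih h
      exact ⟨h2, k, by omega, h3⟩

theorem Es_succ {z : ℕ → V} (n : ℕ) : Es G D₀ a Z z n ⊆ Es G D₀ a Z z (n + 1) := by
  classical
  intro x hx
  rw [Es]
  split_ifs
  · exact Finset.mem_insert_of_mem hx
  · exact hx

theorem Es_mono {z : ℕ → V} {n m : ℕ} (h : n ≤ m) : Es G D₀ a Z z n ⊆ Es G D₀ a Z z m := by
  induction m, h using Nat.le_induction with
  | base => exact subset_rfl
  | succ m _ ih => exact ih.trans (Es_succ m)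

theorem Es_sub {z : ℕ → V} (n : ℕ) : (Es G D₀ a Z z n : Set V) ⊆ Z := fun _ hx => (Es_mem hx).1

theorem Es_not_rho (hZA : ∀ z ∈ Z, z ∉ G.A) (hZD : Z ⊆ D₀) (haA : a ∈ G.A)
    (hfree : ∀ F : Finset V, (F : Set V) ⊆ Z → Unh G (Dl D₀ a F))
    {z : ℕ → V} {n m : ℕ} {x : V} (hx : x ∈ Es G D₀ a Z z m) :
    x ∉ rho G D₀ a (Es G D₀ a Z z n) := by
  classical
  rcases le_total m n with h | h
  · intro hr
    exact hr.1.2.2 (Finset.mem_coe.2 (Es_mono h hx))
  · induction m, h using Nat.le_induction with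
    | base =>
      intro hr
      exact hr.1.2.2 (Finset.mem_coe.2 hx)
    | succ m hm ih =>
      by_cases hxm : x ∈ Es G D₀ a Z z m
      · exact ih hxm
      · rw [Es] at hx
        split_ifs at hx with h1
        · rcases Finset.mem_insert.1 hx with rfl | hx
          · intro hr
            exact h1.2 (rho_mono hZA hZD haA hfree (Es_mono hm) (Es_sub m) hr hxm)
          · exact (hxm hx).elim
        · exact (hxm hx).elim

theorem mem_rho_Es (hZA : ∀ z ∈ Z, z ∉ G.A) (hZD : Z ⊆ D₀) (haA : a ∈ G.A)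
    (hfree : ∀ F : Finset V, (F : Set V) ⊆ Z → Unh G (Dl D₀ a F))
    {z : ℕ → V} {n k : ℕ} (hk : k < n) (hz : z k ∈ Z) (hzn : z k ∉ Es G D₀ a Z z n) :
    z k ∈ rho G D₀ a (Es G D₀ a Z z n) := by
  classical
  have h1 : z k ∉ Es G D₀ a Z z (k + 1) := fun h => hzn (Es_mono hk h)
  have h2 : z k ∉ Es G D₀ a Z z k := fun h => h1 (Es_succ k h)
  rw [Es] at h1
  split_ifs at h1 with h3
  · exact (h1 (Finset.mem_insert_self _ _)).elim
  · have h4 : z k ∈ rho G D₀ a (Es G D₀ a Z z k) := by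
      by_contra h5
      exact h3 ⟨hz, h5⟩
    exact rho_mono hZA hZD haA hfree (Es_mono hk.le) (Es_sub n) h4 hzn

/-- The undominated part of `Z`. -/
def Und (G : Amb V) (D₀ : Set V) (a : V) (Z : Set V) : Set V :=
  {y | y ∈ Z ∧ ∀ F : Finset V, (F : Set V) ⊆ Z → y ∉ rho G D₀ a F}

theorem local_wave_seq (hZA : ∀ z ∈ Z, z ∉ G.A) (hZB : ∀ z ∈ Z, z ∉ G.B) (hZD : Z ⊆ D₀)
    (haA : a ∈ G.A)
    (hfree : ∀ F : Finset V, (F : Set V) ⊆ Z → Unh G (Dl D₀ a F))
    (z : ℕ → V)
    (hcl : ∀ n, z n ∈ Z → z n ∉ Und G D₀ a Z →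
      ∃ F : Finset V, (F : Set V) ⊆ Z ∧ (∀ x ∈ F, ∃ k, z k = x) ∧ z n ∈ rho G D₀ a F) :
    ∃ W : Wp G, IsWave (Dl D₀ a (Und G D₀ a Z)) W ∧
      ∀ F : Finset V, (F : Set V) ⊆ Z → (∀ x ∈ F, ∃ k, z k = x) →
        ∀ v ∈ rho G D₀ a F, ¬ Esc G (Dl D₀ a (Und G D₀ a Z)) W.ter v := by
  classical
  set Y := Und G D₀ a Z with hY
  let E : Set V := {x | ∃ n, x ∈ Es G D₀ a Z z n}
  let Fn : ℕ → Finset V := fun n => ((Finset.range n).image z).filter (· ∈ Z)
  have hFn : ∀ n x, x ∈ Fn n ↔ (∃ k < n, z k = x) ∧ x ∈ Z := by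
    intro n x
    simp [Fn]
  have hFnZ : ∀ n, (Fn n : Set V) ⊆ Z := fun n x hx => ((hFn n x).1 hx).2
  have hEF : ∀ n, Es G D₀ a Z z n ⊆ Fn n := by
    intro n x hx
    obtain ⟨h1, h2⟩ := Es_mem hx
    exact (hFn n x).2 ⟨h2, h1⟩
  have hE4 : ∀ n x, x ∈ Fn n → x ∉ Es G D₀ a Z z n → x ∈ rho G D₀ a (Es G D₀ a Z z n) := by
    intro n x hx hxE
    obtain ⟨⟨k, hk, rfl⟩, hxZ⟩ := (hFn n x).1 hx
    exact mem_rho_Es hZA hZD haA hfree hk hxZ hxE
  have hE5 : ∀ n, rho G D₀ a (Fn n) ⊆ rho G D₀ a (Es G D₀ a Z z n) := fun n =>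
    rho_del_many hZA hZD haA hfree (hEF n) (hFnZ n) (hE4 n)
  have hcov : ∀ F : Finset V, (F : Set V) ⊆ Z → (∀ x ∈ F, ∃ k, z k = x) →
      ∃ n, ∀ m, n ≤ m → F ⊆ Fn m := by
    intro F hFZ hFk
    choose! k hk using hFk
    refine ⟨F.sup k + 1, fun m hm x hx => (hFn m x).2 ⟨⟨k x, ?_, hk x hx⟩, hFZ hx⟩⟩
    have := Finset.le_sup (f := k) hx
    omega
  have hE6 : ∀ F : Finset V, (F : Set V) ⊆ Z → (∀ x ∈ F, ∃ k, z k = x) →
      ∃ n, ∀ x ∈ rho G D₀ a F, x ∉ E → x ∈ rho G D₀ a (Es G D₀ a Z z n) := by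
    intro F hFZ hFk
    obtain ⟨n, hn⟩ := hcov F hFZ hFk
    refine ⟨n, fun x hx hxE => ?_⟩
    by_cases hxF : x ∈ Fn n
    · exact hE4 n x hxF (fun h => hxE ⟨n, h⟩)
    · exact hE5 n (rho_mono hZA hZD haA hfree (hn n le_rfl) (hFnZ n) hx hxF)
  -- the waves for the finite stages
  choose Un hUn hUnr using fun n => exists_rho_wave (G := G) D₀ a (Es G D₀ a Z z n : Set V)
  have hUnC : ∀ n, (Un n).C ⊆ rho G D₀ a (Es G D₀ a Z z n) := fun n x hx =>
    ⟨(hUn n).1 hx, Un n, hUn n, (hUn n).not_esc hx⟩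
  have hEsub : ∀ n, ((Es G D₀ a Z z n : Finset V) : Set V) ⊆ E := fun n x hx => ⟨n, hx⟩
  have hUnE : ∀ n, IsWave (Dl D₀ a E) (Un n) := by
    intro n
    refine ⟨fun x hx => ?_, ?_⟩
    · have h1 := hUnC n hx
      refine ⟨h1.1.1, h1.1.2.1, ?_⟩
      rintro ⟨m, hm⟩
      exact Es_not_rho hZA hZD haA hfree hm h1
    · intro a' ha' haD' he
      exact (hUn n).2 a' ha' (Dl_anti (hEsub n) haD')
        (he.mono (Dl_anti (hEsub n)) subset_rfl)
  let K : Set V := {x | ∃ n, x ∈ rho G D₀ a (Es G D₀ a Z z n)}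
  obtain ⟨U, hU, hUK, hUmax⟩ := exists_max_wave (K := K) (Un 0) (hUnE 0)
    (fun x hx => ⟨0, hUnC 0 hx⟩)
  have star : ∀ v, Esc G (Dl D₀ a E) U.ter v → ∀ n, v ∉ rho G D₀ a (Es G D₀ a Z z n) := by
    intro v hv n hr
    have h1 := hUmax (Un n) (hUnE n) (fun x hx => ⟨n, hUnC n hx⟩) v hv
    exact hUnr n v hr (h1.mono (Dl_anti (hEsub n)) subset_rfl)
  have h5 : ∀ x y, x ∈ E → x ∉ Y → G.adj x y → Esc G (Dl D₀ a E) U.ter y → False := by
    intro x y hxE hxY hxy hy
    obtain ⟨m, hm⟩ := hxE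
    obtain ⟨hxZ, k, -, rfl⟩ := Es_mem hm
    obtain ⟨F, hFZ, hFk, hxF⟩ := hcl k hxZ hxY
    obtain ⟨n₀, hn₀⟩ := hcov F hFZ hFk
    set n := max n₀ m with hn
    have hxEn : z k ∈ Es G D₀ a Z z n := Es_mono (le_max_right _ _) hm
    have hxFn : z k ∈ Fn n := hEF n hxEn
    have hFsub : F ⊆ (Fn n).erase (z k) := by
      intro w hw
      refine Finset.mem_erase.2 ⟨?_, hn₀ n (le_max_left _ _) hw⟩
      rintro rfl
      exact hxF.1.2.2 (Finset.mem_coe.2 hw)
    have herZ : ((Fn n).erase (z k) : Set V) ⊆ Z := fun w hw =>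
      hFnZ n (Finset.mem_coe.2 (Finset.mem_of_mem_erase (Finset.mem_coe.1 hw)))
    have hxr : z k ∈ rho G D₀ a ((Fn n).erase (z k)) :=
      rho_mono hZA hZD haA hfree hFsub herZ hxF (Finset.notMem_erase _ _)
    obtain ⟨W, hW, hWx⟩ := hxr.2
    have hUz : Unh G (Dl D₀ a ((Fn n).erase (z k)) \ {z k}) := by
      rw [← Dl_insert, ← Finset.coe_insert, Finset.insert_erase hxFn]
      exact hfree _ (hFnZ n)
    have hxt : z k ∉ W.ter := not_ter (hZA _ hxZ) hUz hW
    have hyD := hy.mem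
    by_cases hyF : y ∈ Fn n
    · exact star y hy n (hE4 n y hyF (fun h => hyD.2.2 ⟨n, h⟩))
    · have hyD' : y ∈ Dl D₀ a ((Fn n).erase (z k) : Set V) :=
        ⟨hyD.1, hyD.2.1, fun h => hyF (Finset.mem_of_mem_erase (Finset.mem_coe.1 h))⟩
      have hyr : y ∈ rho G D₀ a ((Fn n).erase (z k)) :=
        ⟨hyD', W, hW, roof_step hxr.1 hxt hWx hxy⟩
      exact star y hy n (hE5 n (rho_mono hZA hZD haA hfree (Finset.erase_subset _ _) (hFnZ n)
        hyr hyF))
  have h6 : ∀ v, Esc G (Dl D₀ a Y) U.ter v → Esc G (Dl D₀ a E) U.ter v := by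
    intro v he
    induction he with
    | @base v h1 h2 h3 =>
      refine Esc.base ⟨h1.1, h1.2.1, ?_⟩ h2 h3
      rintro ⟨m, hm⟩
      exact hZB v (Es_mem hm).1 h3
    | @step v w h1 h2 h3 h4 ih =>
      refine Esc.step ⟨h1.1, h1.2.1, ?_⟩ h2 h3 ih
      intro hvE
      exact h5 v w hvE h1.2.2 h3 ih
  refine ⟨U, ⟨?_, ?_⟩, ?_⟩
  · intro x hx
    obtain ⟨n, hn⟩ := hUK hx
    refine ⟨hn.1.1, hn.1.2.1, fun hxY => ?_⟩
    exact hxY.2 _ (Es_sub n) hn
  · intro a' ha' haD' he
    have h7 := h6 a' he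
    exact hU.2 a' ha' h7.mem h7
  · intro F hFZ hFk v hv he
    have h7 := h6 v he
    obtain ⟨n, hn⟩ := hE6 F hFZ hFk
    exact star v h7 n (hn v hv h7.mem.2.2)

open Classical in
/-- Closing a finite set under `φ`. -/
noncomputable def clos (F₀ : Finset V) (φ : V → Finset V) : ℕ → Finset V
  | 0 => F₀
  | n + 1 => clos F₀ φ n ∪ (clos F₀ φ n).biUnion φ

theorem local_wave (hZA : ∀ z ∈ Z, z ∉ G.A) (hZB : ∀ z ∈ Z, z ∉ G.B) (hZD : Z ⊆ D₀)
    (haA : a ∈ G.A)
    (hfree : ∀ F : Finset V, (F : Set V) ⊆ Z → Unh G (Dl D₀ a F))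
    (F₀ : Finset V) (hF₀ : (F₀ : Set V) ⊆ Z) :
    ∃ W : Wp G, IsWave (Dl D₀ a (Und G D₀ a Z)) W ∧
      ∀ v ∈ rho G D₀ a F₀, ¬ Esc G (Dl D₀ a (Und G D₀ a Z)) W.ter v := by
  classical
  have hφ : ∀ x, ∃ F : Finset V, (F : Set V) ⊆ Z ∧ (x ∈ Z → x ∉ Und G D₀ a Z → x ∈ rho G D₀ a F) := by
    intro x
    by_cases h : x ∈ Z ∧ x ∉ Und G D₀ a Z
    · obtain ⟨h1, h2⟩ := h
      by_contra hcon
      push Not at hcon
      exact h2 ⟨h1, fun F hF hx => (hcon F hF).2.2 hx⟩
    · exact ⟨∅, by simp, fun h1 h2 => (h ⟨h1, h2⟩).elim⟩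
  choose φ hφZ hφr using hφ
  obtain ⟨Zs, hZs0, hZs⟩ : ∃ Zs : ℕ → Finset V, Zs 0 = F₀ ∧
      ∀ n, Zs (n + 1) = Zs n ∪ (Zs n).biUnion φ := ⟨clos F₀ φ, rfl, fun n => rfl⟩
  have hZsZ : ∀ n, ((Zs n : Finset V) : Set V) ⊆ Z := by
    intro n
    induction n with
    | zero => rw [hZs0]; exact hF₀
    | succ n ih =>
      intro x hx
      rw [Finset.mem_coe, hZs, Finset.mem_union, Finset.mem_biUnion] at hx
      rcases hx with hx | ⟨y, _, hx⟩
      · exact ih hx
      · exact hφZ y hx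
  let S : Set V := {x | x = a ∨ ∃ n, x ∈ Zs n}
  have hScount : S.Countable := by
    have : S = {a} ∪ ⋃ n, ((Zs n : Finset V) : Set V) := by
      ext x; simp [S]
    rw [this]
    exact (Set.countable_singleton a).union (Set.countable_iUnion fun n => (Zs n).countable_toSet)
  obtain ⟨z, hz⟩ := hScount.exists_eq_range ⟨a, Or.inl rfl⟩
  have hmem : ∀ n, ∀ x ∈ Zs n, ∃ k, z k = x := by
    intro n x hx
    have : x ∈ S := Or.inr ⟨n, hx⟩
    rw [hz] at this
    exact this
  obtain ⟨W, hW, hW2⟩ := local_wave_seq hZA hZB hZD haA hfree z (by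
    intro n hn hnY
    refine ⟨φ (z n), hφZ _, ?_, hφr _ hn hnY⟩
    have h1 : z n ∈ S := by rw [hz]; exact ⟨n, rfl⟩
    rcases h1 with h1 | ⟨m, hm⟩
    · exact (hZA _ hn (h1 ▸ haA)).elim
    · intro x hx
      refine hmem (m + 1) x ?_
      rw [hZs, Finset.mem_union, Finset.mem_biUnion]
      exact Or.inr ⟨z n, hm, hx⟩)
  exact ⟨W, hW, hW2 F₀ hF₀ (hZs0 ▸ hmem 0)⟩

/-- A maximal deletable set `Z` which does not meet `B` yields a hindrance. -/
theorem hindered_of_closed (hZA : ∀ z ∈ Z, z ∉ G.A) (hZB : ∀ z ∈ Z, z ∉ G.B) (hZD : Z ⊆ D₀)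
    (haA : a ∈ G.A) (haB : a ∉ G.B) (haD : a ∈ D₀)
    (hfree : ∀ F : Finset V, (F : Set V) ⊆ Z → Unh G (Dl D₀ a F))
    (hmax : ∀ x y, (x = a ∨ x ∈ Z) → G.adj x y → y ∈ D₀ → y ≠ a → y ∉ Z → y ∉ G.A →
      ∃ F : Finset V, (F : Set V) ⊆ Z ∧ ¬ Unh G (Dl D₀ a (insert y (F : Set V)))) :
    ¬ Unh G D₀ := by
  classical
  intro hUnh
  set Y := Und G D₀ a Z with hY
  obtain ⟨U, hU, -, hUmax⟩ := exists_max_wave (K := Set.univ) (triv G (Dl D₀ a Y))
    (triv_wave _) (Set.subset_univ _)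
  have hroof : ∀ F : Finset V, (F : Set V) ⊆ Z → ∀ v ∈ rho G D₀ a F,
      ¬ Esc G (Dl D₀ a Y) U.ter v := by
    intro F hF v hv he
    obtain ⟨W, hW, hWF⟩ := local_wave hZA hZB hZD haA hfree F hF
    exact hWF v hv (hUmax W hW (Set.subset_univ _) v he)
  have key : ∀ v, Esc G D₀ U.ter v → Esc G (Dl D₀ a Y) U.ter v := by
    intro v he
    induction he with
    | @base v h1 h2 h3 =>
      refine Esc.base ⟨h1, ?_, ?_⟩ h2 h3
      · rintro rfl; exact haB h3
      · intro h; exact hZB v h.1 h3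
    | @step v w h1 h2 h3 h4 ih =>
      by_cases hv : v = a ∨ v ∈ Y
      · exfalso
        have hw := ih.mem
        have hwA : w ∉ G.A := fun h => hU.2 w h hw ih
        have hwZ : w ∉ Z := by
          intro hwZ
          have hwY : w ∉ Y := hw.2.2
          have : ∃ F : Finset V, (F : Set V) ⊆ Z ∧ w ∈ rho G D₀ a F := by
            by_contra hcon
            push Not at hcon
            exact hwY ⟨hwZ, hcon⟩
          obtain ⟨F, hF, hwF⟩ := this
          exact hroof F hF w hwF ih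
        obtain ⟨F, hF, hFU⟩ := hmax v w (hv.imp id (fun h => h.1)) h3 hw.1 hw.2.1 hwZ hwA
        rw [Dl_insert] at hFU
        have hwD : w ∈ Dl D₀ a (F : Set V) := ⟨hw.1, hw.2.1, fun h => hwZ (hF h)⟩
        obtain ⟨W, hW, hwW⟩ := exists_wave_of_hindered (hfree F hF) hwD hwA hFU
        exact hroof F hF w ⟨hwD, W, hW, fun h => h.not_mem hwW⟩ ih
      · rw [not_or] at hv
        exact Esc.step ⟨h1, hv.1, hv.2⟩ h2 h3 ih
  have hwave : IsWave D₀ U := by
    refine ⟨fun x hx => (hU.1 hx).1, ?_⟩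
    intro a' ha' haD' he
    have h1 := key a' he
    exact hU.2 a' ha' h1.mem h1
  exact (hU.1 (hUnh U hwave a haA haD)).2.1 rfl

end

/-- Deleting a source keeps a web unhindered. -/
theorem unh_del_source {D₀ : Set V} {a : V} (hU : Unh G D₀) (haA : a ∈ G.A) (haD : a ∈ D₀) :
    Unh G (Dl D₀ a ∅) := by
  intro W hW a' ha' haD'
  let W' : Wp G :=
    { C := insert a W.C
      E := W.E
      adj := W.adj
      memL := fun h => Or.inr (W.memL h)
      memR := fun h => Or.inr (W.memR h)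
      notA := W.notA
      out := W.out
      inn := W.inn
      pre := by
        rintro v (rfl | hv) hA
        · exact (hA haA).elim
        · exact W.pre hv hA
      wf := W.wf }
  have haC : a ∉ W.C := fun h => (hW.1 h).2.1 rfl
  have hwave : IsWave D₀ W' := by
    refine ⟨?_, ?_⟩
    · rintro x (rfl | hx)
      · exact haD
      · exact (hW.1 hx).1
    · intro b hb hbD he
      have he' : Esc G (Dl D₀ a ∅) W.ter b := by
        refine he.mono' ?_
        intro x hx hx'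
        refine ⟨⟨hx, ?_, fun h => h⟩, fun h => hx' ⟨Or.inr h.1, h.2⟩⟩
        rintro rfl
        exact hx' ⟨Or.inl rfl, fun u e => haC (W.memL e)⟩
      exact hW.2 b hb he'.mem he'
  rcases hU W' hwave a' ha' haD'.1 with h | h
  · exact (haD'.2.1 h).elim
  · exact h

/-- **Internal form of the theorem.** -/
theorem main_internal {D₀ : Set V} {a : V} (hU : Unh G D₀) (haA : a ∈ G.A) (haD : a ∈ D₀) :
    ∃ P : List V, P.Nodup ∧ P.IsChain G.adj ∧ (∀ v ∈ P, v ∈ D₀) ∧ P.head? = some a ∧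
      (∃ b ∈ G.B, P.getLast? = some b) ∧ Unh G (D₀ \ {v | v ∈ P}) := by
  classical
  by_cases haB : a ∈ G.B
  · refine ⟨[a], List.nodup_singleton a, List.IsChain.singleton a, ?_, rfl, ⟨a, haB, rfl⟩, ?_⟩
    · intro v hv
      rw [List.mem_singleton] at hv
      exact hv ▸ haD
    · have : D₀ \ {v | v ∈ [a]} = Dl D₀ a ∅ := by
        ext v; simp [Dl]
      rw [this]
      exact unh_del_source hU haA haD
  · -- good sets
    let S : Set (Set V) := {Z | (∀ z ∈ Z, z ∉ G.A) ∧ Z ⊆ D₀ ∧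
      (∀ F : Finset V, (F : Set V) ⊆ Z → Unh G (Dl D₀ a F)) ∧
      ∀ z ∈ Z, ∃ l : List V, l.Nodup ∧ l.IsChain G.adj ∧ l.head? = some a ∧
        l.getLast? = some z ∧ ∀ x ∈ l, x = a ∨ x ∈ Z}
    have hempty : (∅ : Set V) ∈ S := by
      refine ⟨fun z hz => hz.elim, Set.empty_subset _, ?_, fun z hz => hz.elim⟩
      intro F hF
      have : (F : Set V) = ∅ := Set.subset_empty_iff.1 hF
      rw [this]
      exact unh_del_source hU haA haD
    obtain ⟨Z, hZmax⟩ := zorn_subset S (by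
      intro c hcS hc
      by_cases hne : c.Nonempty
      · refine ⟨⋃₀ c, ⟨?_, ?_, ?_, ?_⟩, fun s hs => Set.subset_sUnion_of_mem hs⟩
        · rintro z ⟨s, hs, hz⟩
          exact (hcS hs).1 z hz
        · exact Set.sUnion_subset fun s hs => (hcS hs).2.1
        · intro F hF
          obtain ⟨s, hs, hFs⟩ := DirectedOn.exists_mem_subset_of_finset_subset_biUnion
            (f := id) hne hc.directedOn (s := F) (by simpa [Set.sUnion_eq_biUnion] using hF)
          exact (hcS hs).2.2.1 F hFs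
        · rintro z ⟨s, hs, hz⟩
          obtain ⟨l, h1, h2, h3, h4, h5⟩ := (hcS hs).2.2.2 z hz
          exact ⟨l, h1, h2, h3, h4, fun x hx => (h5 x hx).imp id (fun h => ⟨s, hs, h⟩)⟩
      · refine ⟨∅, hempty, fun s hs => (hne ⟨s, hs⟩).elim⟩)
    obtain ⟨hZA, hZD, hfree, hpath⟩ := hZmax.prop
    by_cases hZB : ∃ z ∈ Z, z ∈ G.B
    · obtain ⟨b, hbZ, hbB⟩ := hZB
      obtain ⟨l, h1, h2, h3, h4, h5⟩ := hpath b hbZ
      refine ⟨l, h1, h2, ?_, h3, ⟨b, hbB, h4⟩, ?_⟩
      · intro v hv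
        rcases h5 v hv with rfl | h
        · exact haD
        · exact hZD h
      · have hal : a ∈ l := by
          cases l with
          | nil => simp at h3
          | cons x l => simp at h3; simp [h3]
        have : D₀ \ {v | v ∈ l} = Dl D₀ a ((l.toFinset.erase a : Finset V) : Set V) := by
          ext v
          simp only [Dl, Set.mem_sdiff, Set.mem_ofPred_eq, Finset.coe_erase, List.coe_toFinset,
            Set.mem_singleton_iff]
          constructor
          · rintro ⟨h6, h7⟩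
            refine ⟨h6, ?_, fun h => h7 h.1⟩
            rintro rfl; exact h7 hal
          · rintro ⟨h6, h7, h8⟩
            exact ⟨h6, fun h => h8 ⟨h, h7⟩⟩
        rw [this]
        refine hfree _ ?_
        intro x hx
        simp only [Finset.coe_erase, List.coe_toFinset, Set.mem_sdiff, Set.mem_ofPred_eq,
          Set.mem_singleton_iff] at hx
        exact (h5 x hx.1).resolve_left hx.2
    · push Not at hZB
      exfalso
      refine hindered_of_closed hZA hZB hZD haA haB haD hfree ?_ hU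
      intro x y hx hxy hyD hya hyZ hyA
      by_contra hcon
      push Not at hcon
      have hnew : insert y Z ∈ S := by
        refine ⟨?_, Set.insert_subset hyD hZD, ?_, ?_⟩
        · rintro z (rfl | hz)
          · exact hyA
          · exact hZA z hz
        · intro F hF
          have h6 := hcon (F.erase y) (by
            intro w hw
            rw [Finset.mem_coe, Finset.mem_erase] at hw
            exact (hF hw.2).resolve_left hw.1)
          by_cases hyF : y ∈ F
          · rwa [← Finset.coe_insert, Finset.insert_erase hyF] at h6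
          · refine hfree F ?_
            intro w hw
            refine (hF hw).resolve_left ?_
            rintro rfl
            exact hyF hw
        · rintro z (rfl | hz)
          · -- path to the new vertex
            have hx' : ∃ l : List V, l.Nodup ∧ l.IsChain G.adj ∧ l.head? = some a ∧
                l.getLast? = some x ∧ ∀ w ∈ l, w = a ∨ w ∈ Z := by
              rcases hx with rfl | hx
              · exact ⟨[x], List.nodup_singleton x, List.IsChain.singleton x, rfl, rfl,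
                  fun w hw => Or.inl (List.mem_singleton.1 hw)⟩
              · exact hpath x hx
            obtain ⟨l, h1, h2, h3, h4, h5⟩ := hx'
            refine ⟨l ++ [z], ?_, ?_, ?_, ?_, ?_⟩
            · rw [List.nodup_append]
              refine ⟨h1, List.nodup_singleton z, ?_⟩
              intro w hw w' hw' hww
              rw [List.mem_singleton] at hw'
              subst hw'
              subst hww
              rcases h5 w hw with h | h
              · exact hya h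
              · exact hyZ h
            · rw [List.isChain_append]
              refine ⟨h2, List.IsChain.singleton z, ?_⟩
              intro w hw w' hw'
              rw [h4] at hw
              simp at hw hw'
              subst hw
              subst hw'
              exact hxy
            · rw [List.head?_append, h3]; rfl
            · simp
            · intro w hw
              rw [List.mem_append, List.mem_singleton] at hw
              rcases hw with hw | rfl
              · exact (h5 w hw).imp id (fun h => Or.inr h)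
              · exact Or.inr (Or.inl rfl)
          · obtain ⟨l, h1, h2, h3, h4, h5⟩ := hpath z hz
            exact ⟨l, h1, h2, h3, h4, fun w hw => (h5 w hw).imp id (fun h => Or.inr h)⟩
      exact hyZ (hZmax.le_of_ge hnew (Set.subset_insert y Z) (Set.mem_insert y Z))

end Pool.Agent.Helper860_Web
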